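import Mathlib
import Pool.Agent.H82.FEmb

set_option autoImplicit false

namespace Pool.Agent.Results.MP_493890_gt.BingType

open Set Filter Topology Pool.Agent.H82.FEmb Classical

abbrev I1 : Type := Set ℝ ⊕ ℝ

abbrev P : Type := Ultrafilter ℝ

abbrev D : Type := ℕ × ℕ × (I1 → Bool) × (Set P → Bool)

abbrev N : Type := ℝ ⊕ P × ℕ

noncomputable def dl (a : ℝ) : I1 → Bool
  | .inl S => decide (a ∈ S)
  | .inr b => decide (a = b)

noncomputable def ph (p : P) : I1 → Bool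
  | .inl S => decide (S ∈ p)
  | .inr _ => false

noncomputable def ep (p : P) : Set P → Bool := fun T => decide (p ∈ T)

noncomputable def F : N → Filter D
  | .inl a => atTop ×ˢ ⊤ ×ˢ 𝓝 (dl a) ×ˢ ⊤
  | .inr (p, m) => pure m ×ˢ atTop ×ˢ 𝓝 (ph p) ×ˢ 𝓝 (ep p)

inductive X : Type
  | nn (n : N) : X
  | dd (d : D) : X

open X

instance : TopologicalSpace X where
  IsOpen U := ∀ n, nn n ∈ U → dd ⁻¹' U ∈ F n
  isOpen_univ := fun _ _ => univ_mem
  isOpen_inter := fun _ _ hs ht q h => inter_mem (hs q h.1) (ht q h.2)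
  isOpen_sUnion := fun _ h q ⟨t, ht, hqt⟩ =>
    mem_of_superset (h t ht q hqt) (preimage_mono (subset_sUnion_of_mem ht))

lemma open_iff {U : Set X} : IsOpen U ↔ ∀ n, nn n ∈ U → dd ⁻¹' U ∈ F n := Iff.rfl

lemma clopen_of {U : Set X} (h : ∀ n, ∀ᶠ d in F n, (dd d ∈ U ↔ nn n ∈ U)) : IsClopen U :=
  ⟨⟨open_iff.2 fun n hn => (h n).mono fun _ hd h' => hn (hd.1 h')⟩,
    open_iff.2 fun n hn => (h n).mono fun _ hd => hd.2 hn⟩

lemma ev_coord {ι : Type} (x : ι → Bool) (i : ι) : ∀ᶠ y in 𝓝 x, y i = x i :=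
  ((isOpen_discrete {x i}).preimage (continuous_apply i) :
    IsOpen ((fun y : ι → Bool => y i) ⁻¹' {x i})).mem_nhds rfl

lemma evA (a : ℝ) (m : ℕ) (i : I1) : ∀ᶠ d : D in F (.inl a), m ≤ d.1 ∧ d.2.2.1 i = dl a i :=
  (tendsto_fst.eventually (eventually_ge_atTop m)).and
    ((tendsto_fst.comp (tendsto_snd.comp tendsto_snd)).eventually (ev_coord _ i))

lemma evB (p : P) (m k : ℕ) (i : I1) (T : Set P) : ∀ᶠ d : D in F (.inr (p, m)),
    d.1 = m ∧ k ≤ d.2.1 ∧ d.2.2.1 i = ph p i ∧ d.2.2.2 T = ep p T :=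
  (tendsto_fst.eventually (show ∀ᶠ j in pure m, j = m from rfl)).and
    (((tendsto_fst.comp tendsto_snd).eventually (eventually_ge_atTop k)).and
      (((tendsto_fst.comp (tendsto_snd.comp tendsto_snd)).eventually (ev_coord _ i)).and
        ((tendsto_snd.comp (tendsto_snd.comp tendsto_snd)).eventually (ev_coord _ T))))

lemma clopen_D (m k : ℕ) (R : Set D) : IsClopen (dd '' {d ∈ R | d.1 = m ∧ d.2.1 = k}) := by
  refine clopen_of ?_
  rintro (a | ⟨p, m'⟩)
  · filter_upwards [evA a (m + 1) (.inr 0)] with d hd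
    simp only [mem_image, dd.injEq, exists_eq_right, reduceCtorEq, and_false, exists_false,
      iff_false, mem_ofPred_eq]
    omega
  · filter_upwards [evB p m' (k + 1) (.inr 0) ∅] with d hd
    simp only [mem_image, dd.injEq, exists_eq_right, reduceCtorEq, and_false, exists_false,
      iff_false, mem_ofPred_eq]
    omega

lemma sepN (n : N) : ∃ W ∈ F n, ∀ n' ≠ n, Wᶜ ∈ F n' := by
  rcases n with a | ⟨p, m⟩
  · refine ⟨{d | d.2.2.1 (.inr a) = true}, (evA a 0 (.inr a)).mono fun d hd => by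
      simp [hd.2, dl], ?_⟩
    rintro (a' | ⟨p, m⟩) h
    · have : a' ≠ a := fun h' => h (by rw [h'])
      exact (evA a' 0 (.inr a)).mono fun d hd => by simp [hd.2, dl, this]
    · exact (evB p m 0 (.inr a) ∅).mono fun d hd => by simp [hd.2.2.1, ph]
  · refine ⟨{d | d.1 = m ∧ d.2.2.2 {p} = true}, (evB p m 0 (.inr 0) {p}).mono fun d hd => by
      simp [hd.1, hd.2.2.2, ep], ?_⟩
    rintro (a' | ⟨p', m'⟩) h
    · exact (evA a' (m + 1) (.inr 0)).mono fun d hd h' => by have := h'.1; omega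
    · refine (evB p' m' 0 (.inr 0) {p}).mono fun d hd h' => h ?_
      have h1 := h'.2
      rw [hd.2.2.2] at h1
      have h2 : p' = p := by simpa [ep] using h1
      rw [h2, ← hd.1, h'.1]

lemma basis {U : Set X} (hU : IsOpen U) {x : X} (hx : x ∈ U) :
    ∃ V, IsClopen V ∧ x ∈ V ∧ V ⊆ U ∧ ∀ n, nn n ∈ V → nn n = x := by
  rcases x with n | d
  · obtain ⟨W, hW, hW'⟩ := sepN n
    refine ⟨{nn n} ∪ dd '' (W ∩ dd ⁻¹' U), clopen_of fun n' => ?_, Or.inl rfl, ?_, by simp⟩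
    · by_cases h : n' = n
      · subst h
        filter_upwards [hW, open_iff.1 hU _ hx] with d h1 h2
        simpa using ⟨h1, h2⟩
      · filter_upwards [hW' n' h] with d h1
        simpa [h] using fun h2 => absurd h2 h1
    · rintro _ (rfl | ⟨d, hd, rfl⟩)
      · exact hx
      · exact hd.2
  · refine ⟨_, clopen_D d.1 d.2.1 {d}, ⟨d, by simp, rfl⟩, ?_, by simp⟩
    rintro _ ⟨d', hd, rfl⟩
    rwa [show d' = d from hd.1]

lemma t35 : T35Space X := by
  have : CompletelyRegularSpace X := by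
    refine completelyRegularSpace_iff_isOpen.2 fun x K hK hx => ?_
    obtain ⟨V, hV, hxV, hVK, -⟩ := basis hK hx
    refine ⟨V.piecewise (fun _ => 0) (fun _ => 1),
      continuous_const.piecewise (by simp [hV.frontier_eq]) continuous_const,
      piecewise_eq_of_mem _ _ _ hxV, fun y hy => piecewise_eq_of_notMem _ _ _ fun h => hy (hVK h)⟩
  have : T1Space X := by
    refine t1Space_iff_exists_open.2 fun x y h => ?_
    rcases y with n | d
    · obtain ⟨V, hV, hxV, -, h1⟩ := basis isOpen_univ (mem_univ x)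
      exact ⟨V, hV.isOpen, hxV, fun h2 => h (h1 n h2).symm⟩
    · refine ⟨_, (clopen_D d.1 d.2.1 {d}).compl.isOpen, ?_, fun h => h ⟨d, by simp, rfl⟩⟩
      rintro ⟨d', hd, rfl⟩
      exact h (by rw [show d' = d from hd.1])
  exact {}

lemma zA (S : Set ℝ) : FClosed (nn '' (Sum.inl '' S)) := by
  let C : ℕ → Set X := fun j => {x | match x with
    | nn (.inl a) => a ∈ S
    | nn (.inr (p, m)) => j ≤ m ∧ S ∈ p
    | dd d => j ≤ d.1 ∧ d.2.2.1 (.inl S) = true}
  have h : ∀ j, IsClopen (C j) := fun j => clopen_of <| by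
    rintro (a | ⟨p, m⟩)
    · exact (evA a j (.inl S)).mono fun d hd => by simp [C, hd.1, hd.2, dl]
    · exact (evB p m 0 (.inl S) ∅).mono fun d hd => by simp [C, hd.1, hd.2.2.1, ph]
  convert fclosed_iInter h using 1
  ext x
  rcases x with (a | ⟨p, m⟩) | d
  · simp [C]
  · simpa [C] using ⟨m + 1, fun h => by omega⟩
  · simpa [C] using ⟨d.1 + 1, fun h => by omega⟩

lemma zB (T : Set P) (m : ℕ) : FClosed (nn '' (Sum.inr '' (T ×ˢ {m}))) := by
  let C : ℕ → Set X := fun j => {x | match x with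
    | nn (.inl _) => False
    | nn (.inr (p, m')) => m' = m ∧ p ∈ T
    | dd d => d.1 = m ∧ j ≤ d.2.1 ∧ d.2.2.2 T = true}
  have h : ∀ j, IsClopen (C j) := fun j => clopen_of <| by
    rintro (a | ⟨p, m'⟩)
    · exact (evA a (m + 1) (.inr 0)).mono fun d hd => by
        simpa [C] using fun h => by omega
    · exact (evB p m' j (.inr 0) T).mono fun d hd => by
        simp [C, hd.1, hd.2.1, hd.2.2.2, ep]
  convert fclosed_iInter h using 1
  ext x
  rcases x with (a | ⟨p, m'⟩) | d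
  · simp [C]
  · simpa [C, and_comm] using fun _ => eq_comm
  · simpa [C] using ⟨d.2.1 + 1, fun _ h => by omega⟩

lemma all_ffs (Y : Set X) : FFs Y := by
  have h := ((zA {a | nn (.inl a) ∈ Y}).ffs.union
    (ffs_iUnion fun m : ℕ => (zB {p | nn (.inr (p, m)) ∈ Y} m).ffs)).union
    (ffs_iUnion fun q : ℕ × ℕ => (fclosed_clopen (clopen_D q.1 q.2 (dd ⁻¹' Y))).ffs)
  convert h using 1
  ext x
  rcases x with (a | ⟨p, m'⟩) | d <;> simp

lemma not_normal : ¬ NormalSpace X := by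
  intro hN
  have hA : IsClosed (nn '' (range Sum.inl)) :=
    ⟨open_iff.2 fun n _ => Eventually.of_forall fun d => by simp⟩
  have hB : IsClosed (nn '' (range Sum.inr)) :=
    ⟨open_iff.2 fun n _ => Eventually.of_forall fun d => by simp⟩
  obtain ⟨U, W, hU, hW, hAU, hBW, hd⟩ := normal_separation hA hB (by
    rw [Set.disjoint_left]
    rintro _ ⟨_, ⟨a, rfl⟩, rfl⟩ ⟨_, ⟨b, rfl⟩, h⟩
    simp at h)
  have h1 : ∀ a : ℝ, ∃ m, ∀ k y, dd (m, k, dl a, y) ∈ U := by
    intro a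
    obtain ⟨s, hs, t, ht, hst⟩ := Filter.mem_prod_iff.1 (open_iff.1 hU (.inl a) (hAU ⟨_, ⟨a, rfl⟩, rfl⟩))
    obtain ⟨m, hm⟩ := (Filter.nonempty_of_mem hs)
    refine ⟨m, fun k y => hst ⟨hm, ?_⟩⟩
    have : pure (k, dl a, y) ≤ (⊤ : Filter ℕ) ×ˢ 𝓝 (dl a) ×ˢ (⊤ : Filter (Set P → Bool)) := by
      rw [← prod_pure_pure, ← prod_pure_pure]
      exact prod_mono le_top (prod_mono (pure_le_nhds _) le_top)
    exact this ht
  choose h hh using h1
  obtain ⟨m, hm⟩ : ∃ m, (h ⁻¹' {m}).Infinite := by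
    by_contra h2
    push Not at h2
    refine Cardinal.not_countable_real ((countable_iUnion fun m => (h2 m).countable).mono ?_)
    exact fun a _ => mem_iUnion.2 ⟨h a, rfl⟩
  have : (cofinite ⊓ 𝓟 (h ⁻¹' {m})).NeBot := cofinite_inf_principal_neBot_iff.2 hm
  let p : P := Ultrafilter.of (cofinite ⊓ 𝓟 (h ⁻¹' {m}))
  have hp : (p : Filter ℝ) ≤ cofinite ⊓ 𝓟 (h ⁻¹' {m}) := Ultrafilter.of_le _
  have h2 : Tendsto dl p (𝓝 (ph p)) := by
    refine tendsto_pi_nhds.2 fun i => tendsto_const_nhds.congr' ?_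
    rcases i with S | b
    · by_cases hS : S ∈ p
      · filter_upwards [hS] with a ha
        simp [dl, ph, hS, ha]
      · filter_upwards [Ultrafilter.compl_mem_iff_notMem.2 hS] with a ha
        simp [dl, ph, hS, show a ∉ S from ha]
    · filter_upwards [(hp.trans inf_le_left) (finite_singleton b).compl_mem_cofinite] with a ha
      simp [dl, ph, show a ≠ b from ha]
  have h3 : Tendsto (fun q : ℕ × ℝ => ((m, q.1, dl q.2, ep p) : D)) (atTop ×ˢ (p : Filter ℝ))
      (F (.inr (p, m))) :=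
    tendsto_const_pure.prodMk (tendsto_fst.prodMk ((h2.comp tendsto_snd).prodMk
      tendsto_const_nhds))
  have h4 : ∀ᶠ q : ℕ × ℝ in atTop ×ˢ (p : Filter ℝ), h q.2 = m :=
    tendsto_snd.eventually ((hp.trans inf_le_right) (mem_principal_self _))
  obtain ⟨q, h5, h6⟩ := ((h3.eventually
    (open_iff.1 hW (.inr (p, m)) (hBW ⟨_, ⟨_, rfl⟩, rfl⟩))).and h4).exists
  exact Set.disjoint_left.1 hd (h6 ▸ hh q.2 q.1 (ep p)) h5

theorem result : ∃ (X : Type) (_ : TopologicalSpace X), T35Space X ∧ ¬ NormalSpace X ∧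
    ∀ E : Set X, OneEmb E :=
  ⟨X, inferInstance, t35, not_normal, oneEmb_of_all all_ffs⟩

end Pool.Agent.Results.MP_493890_gt.BingType
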